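import Pool.Agent.Lib.FLF.Core2
import Pool.Agent.Lib.FLF.Sum

/-!
# MP_bfa03a_nt: Fermat numbers without small prime factors

For every `ε > 0` there is `c > 0` such that for all large `X` at least `X ^ (1 - ε)` of the
integers `m ≤ X` have the property that every prime factor `q` of the Fermat number
`F_m = 2 ^ (2 ^ m) + 1`, in particular every prime `q` with `q ^ 2 ∣ F_m`, exceeds
`c 2 ^ m log X log₂ X / log₃ X` (iterated natural logarithms).
-/

open Finset
open scoped Classical

namespace Pool.Agent.Results.MP_bfa03a_nt.FermatLeastFactor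

theorem result (ε : ℝ) (hε : 0 < ε) : ∃ c : ℝ, 0 < c ∧ ∃ X₀ : ℕ, ∀ X : ℕ, X₀ ≤ X →
    (X : ℝ) ^ (1 - ε) ≤ (((range (X + 1)).filter fun m : ℕ =>
      ∀ q : ℕ, q.Prime → q ∣ 2 ^ (2 ^ m) + 1 →
        c * 2 ^ m * (Real.log X * Real.log (Real.log X) / Real.log (Real.log (Real.log X))) <
          q).card : ℝ) :=
  FLF.main2 FLF.lam2 ε hε

end Pool.Agent.Results.MP_bfa03a_nt.FermatLeastFactor
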