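import Pool.Agent.Lib.Wief.Fin

/-!
# MP_bfa03a_nt: a positive proportion of the primes is not Wieferich

A prime `q` with `q ^ 2 ∣ F_n` or `q ^ 2 ∣ M_p` is a Wieferich prime, `q ^ 2 ∣ 2 ^ (q - 1) - 1`.
For all large `X` at least `X / (200 log X)` primes `q ≤ X` are not: `q ^ 2` divides no `2 ^ k - 1` and
no `2 ^ k + 1` with `q ∤ k`.
-/

namespace Pool.Agent.Results.MP_bfa03a_nt.NonWieferich

theorem result : ∃ X0 : ℕ, ∀ X : ℕ, X0 ≤ X →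
    (X : ℝ) / (200 * Real.log X) ≤
      (({q : ℕ | q ≤ X ∧ q.Prime ∧ ∀ k : ℕ, ¬ q ∣ k →
        ¬ q ^ 2 ∣ 2 ^ k - 1 ∧ ¬ q ^ 2 ∣ 2 ^ k + 1} : Set ℕ).ncard : ℝ) :=
  Wief.count_all

end Pool.Agent.Results.MP_bfa03a_nt.NonWieferich
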