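import Pool.Agent.Lib.PTr.Main

/-!
# MP_bfa03a_nt: small prime factors and square factors of Mersenne numbers

For every real `lam > 0` there is `c > 0` such that for all large `X` at least `c X / log X` primes
`p ≤ X` have the property that every prime factor of `M_p = 2 ^ p - 1`, in particular every prime
`q` with `q ^ 2 ∣ M_p`, exceeds `lam p log p`.
-/

open Finset
open scoped Classical

namespace Pool.Agent.Results.MP_bfa03a_nt.PositiveProportion

/-- the prime factors of `M_p` are `1` modulo `p` -/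
lemma dvd_sub_one {p q : ℕ} (hp : p.Prime) (hq : q.Prime) (h : q ∣ 2 ^ p - 1) : p ∣ q - 1 := by
  have : Fact q.Prime := ⟨hq⟩
  have h2 : (2 : ZMod q) ^ p = 1 := by
    have h3 := (ZMod.natCast_eq_zero_iff (2 ^ p - 1) q).2 h
    rw [Nat.cast_sub Nat.one_le_two_pow] at h3
    push_cast at h3
    exact sub_eq_zero.1 h3
  have h5 : (2 : ZMod q) ≠ 1 := by
    intro h6
    have h7 : ((1 : ℕ) : ZMod q) = 0 := by
      have h9 : (1 : ZMod q) = 2 - 1 := by norm_num
      push_cast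
      rw [h9, h6, sub_self]
    have h9 := (ZMod.natCast_eq_zero_iff 1 q).1 h7
    exact hq.one_lt.ne' (Nat.dvd_one.1 h9)
  have h6 := orderOf_eq_prime (hp := ⟨hp⟩) h2 h5
  rw [← h6]
  apply ZMod.orderOf_dvd_card_sub_one
  intro h7
  rw [h7, zero_pow hp.ne_zero] at h2
  exact zero_ne_one h2

theorem result (lam : ℝ) (hlam : 0 < lam) : ∃ c : ℝ, 0 < c ∧ ∃ X₀ : ℝ, ∀ X : ℝ, X₀ ≤ X →
    c * X / Real.log X ≤ (((Icc 1 ⌊X⌋₊).filter fun p : ℕ => p.Prime ∧
      ∀ q : ℕ, q.Prime → q ∣ 2 ^ p - 1 → lam * p * Real.log p < q).card : ℝ) := by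
  obtain ⟨c, X₀, hc, h⟩ := PTr.Cor_p PTr.theoremT 1 one_ne_zero lam hlam 3
  refine ⟨c, hc, X₀, fun X hX => (h X hX).trans ?_⟩
  refine Nat.cast_le.2 (card_le_card ?_)
  intro p hp
  rw [mem_filter] at hp ⊢
  obtain ⟨h1, h2, h3, h4⟩ := hp
  refine ⟨h1, h2, fun q hq hqp => h4 q hq ?_ ?_⟩
  · obtain ⟨k, hk⟩ := dvd_sub_one h2 hq hqp
    refine ⟨k, ?_⟩
    have := hq.one_lt
    have h5 : q = p * k + 1 := by omega
    rw [h5]
    push_cast
    ring
  · have := hq.one_lt
    intro h5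
    have h6 : q = 1 := by exact_mod_cast h5
    omega

end Pool.Agent.Results.MP_bfa03a_nt.PositiveProportion
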